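import Mathlib

/-!
# A lower bound for Baker's constant

The definition of Baker's constant quantifies over all admissible quadruples of integers. The
quadruple `(3, 2, -1, 0)`, i.e. the equation `3 p + 2 q = r`, whose smallest solution in primes is
`p = 3`, `q = 2`, `r = 13`, shows that the constant is at least `log 13 / log 3 = 2.33...`.
-/

set_option autoImplicit false

namespace Pool.Agent.Results.MP_3923f3_nt.BakerConstantExceedsOne

/-- Admissible quadruples of integers `(a, b, c, d)`. -/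
def Admissible (a b c d : ℤ) : Prop :=
  a ≠ 0 ∧ b ≠ 0 ∧ c ≠ 0 ∧ ¬ (0 < a ∧ 0 < b ∧ 0 < c) ∧ ¬ (a < 0 ∧ b < 0 ∧ c < 0) ∧
    Even (a + b + c - d) ∧ Int.gcd (Int.gcd a b) c = 1 ∧ Int.gcd (Int.gcd d a) b = 1 ∧
    Int.gcd (Int.gcd d a) c = 1 ∧ Int.gcd (Int.gcd d b) c = 1

/-- `m(a, b, c) = max(3, |a|, |b|, |c|)`. -/
def m (a b c : ℤ) : ℤ := max 3 (max |a| (max |b| |c|))

/-- The real number `μ` is good: for every admissible quadruple `(a, b, c, d)` the equation
`a p + b q + c r = d` has a solution in primes with `max(p, q, r) ≤ 3 |d| + m(a, b, c) ^ μ`. -/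
def Good (μ : ℝ) : Prop :=
  ∀ a b c d : ℤ, Admissible a b c d → ∃ p q r : ℕ, p.Prime ∧ q.Prime ∧ r.Prime ∧
    a * p + b * q + c * r = d ∧ ((max p (max q r) : ℕ) : ℝ) ≤ 3 * |(d : ℝ)| + (m a b c : ℝ) ^ μ

/-- Every solution of `3 p + 2 q = r` in primes has `r ≥ 13`. -/
theorem thirteen_le {p q r : ℕ} (hp : p.Prime) (hq : q.Prime) (hr : r.Prime)
    (h : 3 * p + 2 * q = r) : 13 ≤ r := by
  by_contra hcon
  have h2 := hp.two_le
  have h3 := hq.two_le
  have h4 : p ≤ 2 := by omega
  obtain rfl : p = 2 := by omega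
  have h5 : q ≤ 3 := by omega
  interval_cases q
  · subst h
    revert hr
    norm_num
  · subst h
    revert hr
    norm_num

theorem admissible : Admissible 3 2 (-1) 0 := by
  refine ⟨by norm_num, by norm_num, by norm_num, by norm_num, by norm_num, by decide, ?_, ?_, ?_, ?_⟩
  all_goals decide

theorem lower {μ : ℝ} (h : Good μ) : Real.log 13 / Real.log 3 ≤ μ := by
  obtain ⟨p, q, r, hp, hq, hr, he, hle⟩ := h 3 2 (-1) 0 admissible
  have he' : 3 * p + 2 * q = r := by
    have h1 : (3 : ℤ) * p + 2 * q = r := by linarith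
    exact_mod_cast h1
  have h13 : 13 ≤ r := thirteen_le hp hq hr he'
  have hm : m 3 2 (-1) = 3 := by decide
  rw [hm] at hle
  have h1 : (13 : ℝ) ≤ ((max p (max q r) : ℕ) : ℝ) := by
    have : 13 ≤ max p (max q r) := h13.trans ((le_max_right q r).trans (le_max_right p _))
    exact_mod_cast this
  have h2 : (13 : ℝ) ≤ (3 : ℝ) ^ μ := by
    have h3 : 3 * |((0 : ℤ) : ℝ)| + ((3 : ℤ) : ℝ) ^ μ = (3 : ℝ) ^ μ := by simp
    rw [h3] at hle
    linarith
  have hl3 : 0 < Real.log 3 := Real.log_pos (by norm_num)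
  rw [div_le_iff₀ hl3]
  have h4 := Real.log_le_log (by norm_num) h2
  rwa [Real.log_rpow (by norm_num)] at h4

/-- **A lower bound for Baker's constant.** Every good exponent is at least `log 13 / log 3`; hence
Baker's constant, the infimum of the good exponents, is at least `log 13 / log 3 > 2.33`, so it is
not `1`. -/
theorem result :
    (∀ μ : ℝ, Good μ → Real.log 13 / Real.log 3 ≤ μ) ∧
    (∀ M : ℝ, IsGLB {μ : ℝ | Good μ} M → Real.log 13 / Real.log 3 ≤ M) ∧
    (2.33 : ℝ) < Real.log 13 / Real.log 3 := by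
  refine ⟨fun μ h => lower h, fun M hM => ?_, ?_⟩
  · exact hM.2 fun μ h => lower h
  · have hl3 : 0 < Real.log 3 := Real.log_pos (by norm_num)
    rw [lt_div_iff₀ hl3]
    -- 3 ^ 233 < 13 ^ 100
    have h1 : (3 : ℝ) ^ (233 : ℕ) < 13 ^ (100 : ℕ) := by norm_num
    have h2 := Real.log_lt_log (by positivity) h1
    rw [Real.log_pow, Real.log_pow] at h2
    push_cast at h2
    linarith

end Pool.Agent.Results.MP_3923f3_nt.BakerConstantExceedsOne
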