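import Pool.Agent.HP25.PS.T10

/-!
# MP_3923f3_nt: small prime solutions of linear equations with coefficients near multiples of random
real numbers of positive Fourier dimension

A quadruple `(a, b, c, d)` of integers is admissible (`Admissible`) if `a`, `b`, `c` are nonzero and
not all of the same sign, `a + b + c - d` is even, and each of `gcd(a, b, c)`, `gcd(d, a, b)`,
`gcd(d, a, c)`, `gcd(d, b, c)` is one. Baker's constant is the infimum of the exponents `μ` for which
every admissible equation `a p + b q + c r = d` has a solution in primes with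

  `max(p, q, r) ≤ 3 |d| + m ^ μ`, `m = max(3, |a|, |b|, |c|)`   (`SmallSolution μ a b c d`).

It is known that it is at most `45`, and at most `4` on the generalized Riemann hypothesis; for large
coefficients the exponent `1 + ε` is conjectured. The start results `OneLargeCoefficient` and
`ThreeLargeCoefficients` treat almost all large coefficients in the sense of density, and
`GenericLinearForms` treats the coefficients near multiples `λ x` for almost all real `x` in the sense of
Lebesgue (and more general linear forms).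

Here the large coefficients are the integers in short windows around the multiples `λ x` of real numbers
`x`, for almost all `x` with respect to an arbitrary probability measure with compact support whose
Fourier transform decays polynomially (`Law`); every set of positive Fourier dimension, however small its
dimension, carries such measures, for example the set of the Liouville-like numbers `x` with
`‖q x‖ < q ^ (- v)` for infinitely many `q`, or random Cantor sets.

**Theorem.** Let `C`, `A`, `δ > 0`, `0 ≤ s ≤ 1`. `Law P C δ A s x` says that the random real number `x`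
satisfies `|x| ≤ A`, `|E exp(i u x)| |u| ^ δ ≤ C` for all `u`, and `P(|x - u| ≤ r) ≤ C r ^ s` for all `u`
and `r > 0` (for `s = 0` and `C ≥ 1` the last condition is void).

1. Let `μ > min (3 / 2) (2 - s)`. For all `T`, `W`, `U` and all `λ ≥ λ₀`, `λ₀` depending on
   `C, δ, A, s, μ, T, W, U` only, the probability that there is ANY integer `t`,
   `|± t - λ x| ≤ (log λ) ^ W`, for which not ALL admissible equations with the coefficient `t`, two other
   coefficients of size at most `(log λ) ^ T` and an arbitrary `d` have a solution with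
   `max(p, q, r) ≤ 3 |d| + m ^ μ`, is at most `(log λ) ^ (- U)`.
2. Let `μ > min 3 (4 - 2 s)`, and let `x_0, x_1, x_2` be pairwise independent. For all `W`, `U` and all
   `λ ≥ λ₀` the probability that there are ANY integers `t_l` with `|± t_l - λ x_l| ≤ (log λ) ^ W` for
   which not ALL admissible equations with the coefficients `t_0, t_1, t_2` and an arbitrary `d` have a
   solution with `max(p, q, r) ≤ 3 |d| + m ^ μ`, is at most `(log λ) ^ (- U)`.
3. For pairwise independent `x_0, x_1, x_2, …` and a sequence `λ_j → ∞` such that `∑ (log λ_j) ^ (- U)`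
   converges for some `U` (for example `λ_j = exp (j ^ ε)`), almost surely for ALL `μ`, `T`, `W`, all `l`
   and all triples of different `l`, for all but finitely many `j` there are no such integers.

So the exponent is `3 / 2 + ε` with one random coefficient and `3 + ε` with three, for all these measures;
it is `1 + ε` and `2 + ε` if `s` can be taken arbitrarily close to `1`, which is possible also for
singular measures (for the measure of Lebesgue this is contained in `GenericLinearForms`).

Proof. By the start results it suffices to avoid large divisors in a set `D` with `X ^ o(1)` elements up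
to `X`, sets `F` of dimension less than `s` (empty if `μ > 3 / 2` or `μ > 3`), and large common divisors.
The decay of the Fourier transform shows with the Fejér kernel that the probability that `λ x` is within
`h` of a multiple of `r` is `O (h / r + h λ ^ (- κ))`, `κ = min δ (1 / 2)`.
-/

set_option autoImplicit false

namespace Pool.Agent.Results.MP_3923f3_nt.FourierDecayCoefficients

open MeasureTheory ProbabilityTheory Filter
open Pool.Agent.Y883.T5 (Admissible)
open Pool.Agent.Y883.T6 (SmallSolution)

/-- The random number `x` is bounded by `A`, the Fourier transform of its law has polynomial decay, and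
intervals of length `2 r` have probability at most `C r ^ s`. -/
structure Law {Ω : Type} [MeasurableSpace Ω] (P : Measure Ω) (C δ A s : ℝ) (x : Ω → ℝ) : Prop where
  measurable : Measurable x
  bounded : ∀ᵐ ω ∂P, |x ω| ≤ A
  decay : ∀ u : ℝ, ‖charFun (P.map x) u‖ * |u| ^ δ ≤ C
  interval : ∀ u r : ℝ, 0 < r → P.real {ω | |x ω - u| ≤ r} ≤ C * r ^ s

/-- `t` has distance at most `h` from `x` or from `-x`. -/
def Near (h x : ℝ) (t : ℤ) : Prop := |(t : ℝ) - x| ≤ h ∨ |(t : ℝ) + x| ≤ h

/-- `t ≠ 0`, and all the admissible equations with the coefficient `t`, two other coefficients of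
absolute value at most `B` and any right side have a solution in primes with
`max(p, q, r) ≤ 3 |d| + m ^ μ`. -/
def Good (μ B : ℝ) (t : ℤ) : Prop :=
  t ≠ 0 ∧ ∀ a b d : ℤ, |(a : ℝ)| ≤ B → |(b : ℝ)| ≤ B → Admissible a b t d → SmallSolution μ a b t d

/-- The `t l` are not zero, and all the admissible equations with the coefficients `t 0`, `t 1`, `t 2`
and any right side have a solution in primes with `max(p, q, r) ≤ 3 |d| + m ^ μ`. -/
def Good3 (μ : ℝ) (t : Fin 3 → ℤ) : Prop :=
  (∀ l, t l ≠ 0) ∧
    ∀ d : ℤ, Admissible (t 0) (t 1) (t 2) d → SmallSolution μ (t 0) (t 1) (t 2) d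

lemma rnd_of {Ω : Type} [MeasurableSpace Ω] {P : Measure Ω} {C δ A s : ℝ} {x : Ω → ℝ}
    (h : Law P C δ A s x) : Pool.Agent.HP25.PS.Rnd P C δ A s x :=
  ⟨h.measurable, h.bounded, h.decay, h.interval⟩

theorem result (C δ A s : ℝ) (hδ : 0 < δ) (_hs : 0 ≤ s) (hs1 : s ≤ 1) :
    -- 1. one large coefficient
    (∀ μ : ℝ, min (3 / 2) (2 - s) < μ → ∀ T W U : ℕ, ∃ lam₀ : ℝ,
      ∀ (Ω : Type) [MeasurableSpace Ω] (P : Measure Ω) [IsProbabilityMeasure P] (x : Ω → ℝ),
      Law P C δ A s x → ∀ lam : ℝ, lam₀ ≤ lam →
      P {ω | ∃ t : ℤ, Near (Real.log lam ^ W) (lam * x ω) t ∧ ¬ Good μ (Real.log lam ^ T) t} ≤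
        ENNReal.ofReal (1 / Real.log lam ^ U)) ∧
    -- 2. three large coefficients
    (∀ μ : ℝ, min 3 (4 - 2 * s) < μ → ∀ W U : ℕ, ∃ lam₀ : ℝ,
      ∀ (Ω : Type) [MeasurableSpace Ω] (P : Measure Ω) [IsProbabilityMeasure P] (x : Fin 3 → Ω → ℝ),
      (∀ l, Law P C δ A s (x l)) → (∀ l l', l ≠ l' → IndepFun (x l) (x l') P) →
      ∀ lam : ℝ, lam₀ ≤ lam →
      P {ω | ∃ t : Fin 3 → ℤ, (∀ l, Near (Real.log lam ^ W) (lam * x l ω) (t l)) ∧ ¬ Good3 μ t} ≤
        ENNReal.ofReal (1 / Real.log lam ^ U)) ∧
    -- 3. one null set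
    ∀ (Ω : Type) [MeasurableSpace Ω] (P : Measure Ω) [IsProbabilityMeasure P] (x : ℕ → Ω → ℝ),
      (∀ l, Law P C δ A s (x l)) → (∀ l l', l ≠ l' → IndepFun (x l) (x l') P) →
      ∀ lam : ℕ → ℝ, Tendsto lam atTop atTop →
      (∃ U : ℕ, Summable fun j => 1 / Real.log (lam j) ^ U) →
      ∀ᵐ ω ∂P,
        (∀ μ : ℝ, min (3 / 2) (2 - s) < μ → ∀ l T W : ℕ, ∀ᶠ j : ℕ in atTop, ∀ t : ℤ,
          Near (Real.log (lam j) ^ W) (lam j * x l ω) t → Good μ (Real.log (lam j) ^ T) t) ∧
        ∀ μ : ℝ, min 3 (4 - 2 * s) < μ → ∀ φ : Fin 3 → ℕ, Function.Injective φ → ∀ W : ℕ,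
          ∀ᶠ j : ℕ in atTop, ∀ t : Fin 3 → ℤ,
            (∀ l, Near (Real.log (lam j) ^ W) (lam j * x (φ l) ω) (t l)) → Good3 μ t := by
  have hone : ∀ μ : ℝ, min (3 / 2) (2 - s) < μ → 1 < μ := fun μ hμ =>
    lt_of_le_of_lt (le_min (by norm_num) (by linarith)) hμ
  have htwo : ∀ μ : ℝ, min 3 (4 - 2 * s) < μ → 2 < μ := fun μ hμ =>
    lt_of_le_of_lt (le_min (by norm_num) (by linarith)) hμ
  refine ⟨fun μ hμ T W U => ?_, fun μ hμ W U => ?_, ?_⟩
  · obtain ⟨lam₀, h⟩ := Pool.Agent.HP25.PS.four_one C δ A s hδ hs1 μ (hone μ hμ) hμ T W U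
    refine ⟨lam₀, fun Ω _ P _ x hx lam hlam => ?_⟩
    rw [one_div]
    exact h P x (rnd_of hx) lam hlam
  · obtain ⟨lam₀, h⟩ := Pool.Agent.HP25.PS.four_three C δ A s hδ hs1 μ (htwo μ hμ) hμ W U
    refine ⟨lam₀, fun Ω _ P _ x hx hind lam hlam => ?_⟩
    rw [one_div]
    exact h P x (fun l => rnd_of (hx l)) hind lam hlam
  · rintro Ω _ P _ x hx hind lam hlam ⟨U, hU⟩
    have h := Pool.Agent.HP25.PS.four_ae C δ A s hδ hs1 P x (fun l => rnd_of (hx l)) hind lam hlam U
      (by simpa only [one_div] using hU)
    filter_upwards [h] with ω hω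
    exact ⟨fun μ hμ l T W => hω.1 μ (hone μ hμ) hμ l T W,
      fun μ hμ φ hφ W => hω.2 μ (htwo μ hμ) hμ φ hφ W⟩

end Pool.Agent.Results.MP_3923f3_nt.FourierDecayCoefficients
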