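import Pool.Agent.HP25.PS.T9

/-!
# MP_3923f3_nt: small prime solutions of linear equations with one coefficient with random or
restricted digits

A quadruple `(a, b, c, d)` of integers is admissible (`Admissible`) if `a`, `b`, `c` are nonzero and
not all of the same sign, `a + b + c - d` is even, and each of `gcd(a, b, c)`, `gcd(d, a, b)`,
`gcd(d, a, c)`, `gcd(d, b, c)` is one. Baker's constant is the infimum of the exponents `μ` for which
every admissible equation `a p + b q + c r = d` has a solution in primes with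

  `max(p, q, r) ≤ 3 |d| + m ^ μ`, `m = max(3, |a|, |b|, |c|)`   (`SmallSolution μ a b c d`).

It is known that it is at most `45`, and at most `4` on the generalized Riemann hypothesis; for large
coefficients the exponent `1 + ε` is conjectured. The start result `OneLargeCoefficient` gives `1 + ε` for
almost all values of one large coefficient in the sense of density, if the two others are at most powers
of its logarithm, and `3 / 2 + ε` outside the multiples of a sparse set; `OneLargeCoefficientTenSevenths`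
gives `10 / 7 + ε` for `|a| = |b| = 1` and all `c`, `d` with a small greatest common divisor. Here the
large coefficient is in a very thin set, or has an arbitrary law of this kind; the other coefficients are
arbitrary up to any power of the logarithm, and `d` is arbitrary.

**Theorem.** Let `b ≥ 2`, `0 < γ ≤ 1` and `μ > min (3 / 2) (2 - γ)`. Let the `K` digits of an integer
`x < b ^ K` to the base `b` be random and independent, with arbitrary distributions (which may depend
on the position) such that no digit has a probability larger than `b ^ (- γ)` (`Digits`). A nonzero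
integer `t` is called good (`Good μ (K ^ T) t`) if ALL the admissible equations with the coefficient
`t`, two other coefficients of absolute value at most `K ^ T` (that is, at most a power of the logarithm
of `b ^ K`) and an arbitrary right side `d` have a solution in primes with
`max(p, q, r) ≤ 3 |d| + m ^ μ`.

1. For all `T`, `W`, `U` and all `K ≥ K₀ (b, γ, μ, T, W, U)` the probability that there is ANY integer `t`
   with `|± t - x| ≤ K ^ W` which is not good is at most `K ^ (- U)`, for all these distributions.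
2. In particular, for arbitrary sets `A_j` of digits with at least `b ^ γ` elements: for all but
   `K ^ (- U) ∏ #A_j` of the `∏ #A_j` integers `n < b ^ K` with digits in the sets `A_j` ALL the integers
   `t`, `|± t - n| ≤ K ^ W`, are good.
3. Let `X_K`, `K = 1, 2, …`, be random integers whose first `K` digits have laws as above (no assumption
   on the dependence of different `K`). Then almost surely for ALL `μ > min (3 / 2) (2 - γ)`, `T` and `W`,
   for all but finitely many `K` ALL the integers `t` with `|± t - X_K| ≤ K ^ W` are good.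

So the exponent is `3 / 2 + ε` for coefficients with random digits of any kind, however sparse, and it
tends to the conjectured value `1` if the number of the permitted digits is `b ^ (1 - o(1))`; for example
the coefficients without the digit `7` to the base `b` have the exponent
`2 - log (b - 1) / log b + ε`.

Proof. By `OneLargeCoefficient` it suffices that `t` has no large divisor in a set `D` with `X ^ o(1)`
elements up to `X`, and that `|t|` is not in a set `F` (empty if `μ > 3 / 2`) with `X ^ (2 - μ + η)`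
elements up to `X`. The probability that there is an integer near `x` which is a multiple of `r` is
`O (h r ^ (- γ) + h b ^ (- γ K))`, and the sum of `d ^ (- γ)` over `D` converges.
-/

set_option autoImplicit false

namespace Pool.Agent.Results.MP_3923f3_nt.OneRandomDigitCoefficient

open Finset MeasureTheory ProbabilityTheory Filter
open Pool.Agent.Y883.T5 (Admissible)
open Pool.Agent.Y883.T6 (SmallSolution)

/-- `w j` is a probability distribution on the digits `0, …, b - 1` for every position `j`, and no digit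
has a probability larger than `b ^ (- γ)`. -/
def Digits (b : ℕ) (γ : ℝ) (w : ℕ → ℕ → ℝ) : Prop :=
  ∀ j, (∀ a, 0 ≤ w j a ∧ w j a ≤ (b : ℝ) ^ (-γ)) ∧ ∑ a ∈ range b, w j a = 1

/-- The probability of the integer `n < b ^ K`, if the digit at the position `j < K` has the
distribution `w j` and the digits are independent. -/
noncomputable def prob (b : ℕ) (w : ℕ → ℕ → ℝ) (K n : ℕ) : ℝ := ∏ j ∈ range K, w j (n / b ^ j % b)

/-- `t` has distance at most `h` from `x` or from `-x`. -/
def Near (h x : ℝ) (t : ℤ) : Prop := |(t : ℝ) - x| ≤ h ∨ |(t : ℝ) + x| ≤ h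

/-- `t ≠ 0`, and all the admissible equations with the coefficient `t`, two other coefficients of
absolute value at most `B` and any right side have a solution in primes with
`max(p, q, r) ≤ 3 |d| + m ^ μ`. -/
def Good (μ B : ℝ) (t : ℤ) : Prop :=
  t ≠ 0 ∧ ∀ a b d : ℤ, |(a : ℝ)| ≤ B → |(b : ℝ)| ≤ B → Admissible a b t d → SmallSolution μ a b t d

lemma dig_of {b : ℕ} {γ : ℝ} {w : ℕ → ℕ → ℝ} (h : Digits b γ w) :
    Pool.Agent.TH872.Sq.Dig b (1 - (b : ℝ) ^ (-γ)) w :=
  ⟨fun i a => ((h i).1 a).1, fun i => (h i).2, fun i a => by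
    rw [sub_sub_cancel]
    exact ((h i).1 a).2⟩

lemma prob_eq (b : ℕ) (w : ℕ → ℕ → ℝ) (K n : ℕ) : prob b w K n = Pool.Agent.TH872.Sq.P b w 0 K n := by
  unfold prob Pool.Agent.TH872.Sq.P
  simp

/-- the uniform distributions on sets of digits -/
lemma digits_unif {b : ℕ} (hb : 2 ≤ b) {γ : ℝ} {A : ℕ → Finset ℕ}
    (hA : ∀ j, A j ⊆ range b ∧ (b : ℝ) ^ γ ≤ (A j).card) :
    Digits b γ fun j a => if a ∈ A j then ((A j).card : ℝ)⁻¹ else 0 := by
  intro j
  have hb0 : (0 : ℝ) < b := by exact_mod_cast (by omega : 0 < b)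
  have hpos : (0 : ℝ) < (b : ℝ) ^ γ := Real.rpow_pos_of_pos hb0 _
  have hc : (0 : ℝ) < (A j).card := lt_of_lt_of_le hpos (hA j).2
  refine ⟨fun a => ?_, ?_⟩
  · dsimp only
    split_ifs
    · refine ⟨by positivity, ?_⟩
      rw [Real.rpow_neg hb0.le]
      exact inv_anti₀ hpos (hA j).2
    · exact ⟨le_rfl, by positivity⟩
  · rw [← sum_filter, filter_mem_eq_inter, inter_eq_right.2 (hA j).1, sum_const, nsmul_eq_mul]
    exact mul_inv_cancel₀ hc.ne'

theorem result (b : ℕ) (hb : 2 ≤ b) (γ : ℝ) (hγ : 0 < γ) (hγ1 : γ ≤ 1) :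
    -- 1. the probability that there are bad integers near a random integer
    (∀ μ : ℝ, min (3 / 2) (2 - γ) < μ → ∀ T W U : ℕ, ∃ K₀ : ℕ, ∀ K : ℕ, K₀ ≤ K →
      ∀ w : ℕ → ℕ → ℝ, Digits b γ w → ∀ B : Finset ℕ,
        (∀ x ∈ B, x < b ^ K ∧ ∃ t : ℤ, Near ((K : ℝ) ^ W) x t ∧ ¬ Good μ ((K : ℝ) ^ T) t) →
        ∑ x ∈ B, prob b w K x ≤ 1 / (K : ℝ) ^ U) ∧
    -- 2. restricted digits
    (∀ μ : ℝ, min (3 / 2) (2 - γ) < μ → ∀ T W U : ℕ, ∃ K₀ : ℕ, ∀ K : ℕ, K₀ ≤ K →
      ∀ A : ℕ → Finset ℕ, (∀ j, A j ⊆ range b ∧ (b : ℝ) ^ γ ≤ (A j).card) → ∀ B : Finset ℕ,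
        (∀ n ∈ B, n < b ^ K ∧ (∀ j < K, n / b ^ j % b ∈ A j) ∧
          ∃ t : ℤ, Near ((K : ℝ) ^ W) n t ∧ ¬ Good μ ((K : ℝ) ^ T) t) →
        (B.card : ℝ) ≤ (∏ j ∈ range K, ((A j).card : ℝ)) / (K : ℝ) ^ U) ∧
    -- 3. one null set
    ∀ (Ω : Type) [MeasurableSpace Ω] (Q : Measure Ω) [IsProbabilityMeasure Q] (X : ℕ → Ω → ℕ)
      (w : ℕ → ℕ → ℕ → ℝ), (∀ K, Measurable (X K)) → (∀ K, Digits b γ (w K)) →
      (∀ K n, n < b ^ K → Q.real {ω | X K ω = n} = prob b (w K) K n) →
      ∀ᵐ ω ∂Q, ∀ μ : ℝ, min (3 / 2) (2 - γ) < μ → ∀ T W : ℕ, ∀ᶠ K : ℕ in atTop, ∀ t : ℤ,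
        Near ((K : ℝ) ^ W) (X K ω) t → Good μ ((K : ℝ) ^ T) t := by
  have hone : ∀ μ : ℝ, min (3 / 2) (2 - γ) < μ → 1 < μ := by
    intro μ hμ
    refine lt_of_le_of_lt (le_min (by norm_num) (by linarith)) hμ
  have h1 : ∀ μ : ℝ, min (3 / 2) (2 - γ) < μ → ∀ T W U : ℕ, ∃ K₀ : ℕ, ∀ K : ℕ, K₀ ≤ K →
      ∀ w : ℕ → ℕ → ℝ, Digits b γ w → ∀ B : Finset ℕ,
        (∀ x ∈ B, x < b ^ K ∧ ∃ t : ℤ, Near ((K : ℝ) ^ W) x t ∧ ¬ Good μ ((K : ℝ) ^ T) t) →
        ∑ x ∈ B, prob b w K x ≤ 1 / (K : ℝ) ^ U := by
    intro μ hμ T W U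
    obtain ⟨K₀, h⟩ := Pool.Agent.HP25.PS.dig_one b hb γ hγ hγ1 μ (hone μ hμ) hμ T W U
    refine ⟨K₀, fun K hK w hw B hB => ?_⟩
    have h2 := (h K hK w (dig_of hw)).1 B hB
    rw [one_div]
    simpa only [prob_eq] using h2
  refine ⟨h1, ?_, ?_⟩
  · intro μ hμ T W U
    obtain ⟨K₀, h⟩ := h1 μ hμ T W U
    refine ⟨K₀, fun K hK A hA B hB => ?_⟩
    have h2 := h K hK _ (digits_unif hb hA) B fun x hx => ⟨(hB x hx).1, (hB x hx).2.2⟩
    have hb0 : (0 : ℝ) < b := by exact_mod_cast (by omega : 0 < b)
    have hc : ∀ j, (0 : ℝ) < (A j).card := fun j => lt_of_lt_of_le (Real.rpow_pos_of_pos hb0 γ) (hA j).2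
    have h3 : ∑ x ∈ B, prob b (fun j a => if a ∈ A j then ((A j).card : ℝ)⁻¹ else 0) K x =
        B.card * (∏ j ∈ range K, ((A j).card : ℝ))⁻¹ := by
      rw [← nsmul_eq_mul, ← sum_const]
      refine sum_congr rfl fun x hx => ?_
      unfold prob
      rw [← prod_inv_distrib]
      refine prod_congr rfl fun j hj => ?_
      dsimp only
      rw [if_pos ((hB x hx).2.1 j (mem_range.1 hj))]
    have hP : (0 : ℝ) < ∏ j ∈ range K, ((A j).card : ℝ) := prod_pos fun j _ => hc j
    rw [h3, ← div_eq_mul_inv, div_le_iff₀ hP] at h2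
    rw [div_eq_mul_one_div, mul_comm]
    exact h2
  · intro Ω _ Q _ X w hX hw hlaw
    have h := Pool.Agent.HP25.PS.dig_one_ae b hb γ hγ hγ1 Q X hX w (fun K => dig_of (hw K))
      (fun K n hn => by rw [hlaw K n hn, prob_eq])
    filter_upwards [h] with ω hω μ hμ T W
    exact hω μ (hone μ hμ) hμ T W

end Pool.Agent.Results.MP_3923f3_nt.OneRandomDigitCoefficient
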