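import Pool.Agent.HP25.PS.T9

/-!
# MP_3923f3_nt: small prime solutions of linear equations with three coefficients with random or
restricted digits

A quadruple `(a, b, c, d)` of integers is admissible (`Admissible`) if `a`, `b`, `c` are nonzero and
not all of the same sign, `a + b + c - d` is even, and each of `gcd(a, b, c)`, `gcd(d, a, b)`,
`gcd(d, a, c)`, `gcd(d, b, c)` is one. Baker's constant is the infimum of the exponents `μ` for which
every admissible equation `a p + b q + c r = d` has a solution in primes with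

  `max(p, q, r) ≤ 3 |d| + m ^ μ`, `m = max(3, |a|, |b|, |c|)`   (`SmallSolution μ a b c d`).

It is known that it is at most `45`, and at most `4` on the generalized Riemann hypothesis. The start
result `ThreeLargeCoefficients` gives `2 + ε` for almost all triples of coefficients in the sense of
density, and `PairwiseCoprimeCoefficients` gives `4 + ε` for all large pairwise coprime coefficients, if
`gcd(d, a b c)` is small. Here the three coefficients are in very thin sets, or have arbitrary laws of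
this kind, and `d` is arbitrary.

**Theorem.** Let `b ≥ 2`, `1 / 2 < γ ≤ 1` and `μ > 4 - 2 γ`. Let the `K` digits of the integers
`x_0, x_1, x_2 < b ^ K` to the base `b` be random and independent, with arbitrary distributions (which
may depend on the position and on the integer) such that no digit has a probability larger than
`b ^ (- γ)` (`Digits`). A vector `t` of three nonzero integers is called good (`Good μ t`) if ALL the
admissible equations with the coefficients `t_0`, `t_1`, `t_2` and an arbitrary right side `d` have a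
solution in primes with `max(p, q, r) ≤ 3 |d| + m ^ μ`.

1. For all `W`, `U` and all `K ≥ K₀ (b, γ, μ, W, U)` the probability that there are ANY integers `t_l`
   with `|± t_l - x_l| ≤ K ^ W` (the signs are arbitrary) such that `t` is not good is at most
   `K ^ (- U)`, for all these distributions.
2. In particular, for arbitrary sets `A_{l j}` of digits with at least `b ^ γ` elements: for all but
   `K ^ (- U) ∏ #A_{l j}` of the `∏ #A_{l j}` vectors `n` of integers `n_l < b ^ K` with digits in these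
   sets ALL the vectors `t` of integers with `|± t_l - n_l| ≤ K ^ W` are good.
3. Let `X_{l K}`, `l = 0, 1, 2`, `K = 1, 2, …`, be random integers whose first `K` digits have laws as
   above, pairwise independent for each `K` (no assumption on the dependence of different `K`). Then
   almost surely for ALL `μ > 4 - 2 γ` and `W`, for all but finitely many `K` ALL the vectors `t` of
   integers with `|± t_l - X_{l K}| ≤ K ^ W` are good.

So the exponent is less than `3` if more than `√b` digits are permitted, and it tends to `2` if the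
number of the permitted digits is `b ^ (1 - o(1))`.

Proof. By `ThreeLargeCoefficients` it suffices that for every pair `(u, v)` of the coefficients
`gcd(u, v)` is at most a power of the logarithm, `u v` has no large divisor in a set `D` with `X ^ o(1)`
elements up to `X`, and `|u v|` is not in a set `F` (empty if `μ > 3`) with `X ^ (2 - μ / 2 + η)` elements
up to `X`. The probability that there is an integer near `x_l` which is a multiple of `r` is
`O (h r ^ (- γ) + h b ^ (- γ K))`; a divisor of `u v` is a product of divisors of `u` and of `v`, large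
common divisors are among the few divisors of `u`, and the sum of `g ^ (- 2 γ)` converges as `γ > 1 / 2`.
-/

set_option autoImplicit false

namespace Pool.Agent.Results.MP_3923f3_nt.ThreeRandomDigitCoefficients

open Finset MeasureTheory ProbabilityTheory Filter
open Pool.Agent.Y883.T5 (Admissible)
open Pool.Agent.Y883.T6 (SmallSolution)

/-- `w j` is a probability distribution on the digits `0, …, b - 1` for every position `j`, and no digit
has a probability larger than `b ^ (- γ)`. -/
def Digits (b : ℕ) (γ : ℝ) (w : ℕ → ℕ → ℝ) : Prop :=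
  ∀ j, (∀ a, 0 ≤ w j a ∧ w j a ≤ (b : ℝ) ^ (-γ)) ∧ ∑ a ∈ range b, w j a = 1

/-- The probability of the integer `n < b ^ K`, if the digit at the position `j < K` has the
distribution `w j` and the digits are independent. -/
noncomputable def prob (b : ℕ) (w : ℕ → ℕ → ℝ) (K n : ℕ) : ℝ := ∏ j ∈ range K, w j (n / b ^ j % b)

/-- `t` has distance at most `h` from `x` or from `-x`. -/
def Near (h x : ℝ) (t : ℤ) : Prop := |(t : ℝ) - x| ≤ h ∨ |(t : ℝ) + x| ≤ h

/-- The `t l` are not zero, and all the admissible equations with the coefficients `t 0`, `t 1`, `t 2`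
and any right side have a solution in primes with `max(p, q, r) ≤ 3 |d| + m ^ μ`. -/
def Good (μ : ℝ) (t : Fin 3 → ℤ) : Prop :=
  (∀ l, t l ≠ 0) ∧
    ∀ d : ℤ, Admissible (t 0) (t 1) (t 2) d → SmallSolution μ (t 0) (t 1) (t 2) d

lemma dig_of {b : ℕ} {γ : ℝ} {w : ℕ → ℕ → ℝ} (h : Digits b γ w) :
    Pool.Agent.TH872.Sq.Dig b (1 - (b : ℝ) ^ (-γ)) w :=
  ⟨fun i a => ((h i).1 a).1, fun i => (h i).2, fun i a => by
    rw [sub_sub_cancel]
    exact ((h i).1 a).2⟩

lemma prob_eq (b : ℕ) (w : ℕ → ℕ → ℝ) (K n : ℕ) : prob b w K n = Pool.Agent.TH872.Sq.P b w 0 K n := by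
  unfold prob Pool.Agent.TH872.Sq.P
  simp

/-- the uniform distributions on sets of digits -/
lemma digits_unif {b : ℕ} (hb : 2 ≤ b) {γ : ℝ} {A : ℕ → Finset ℕ}
    (hA : ∀ j, A j ⊆ range b ∧ (b : ℝ) ^ γ ≤ (A j).card) :
    Digits b γ fun j a => if a ∈ A j then ((A j).card : ℝ)⁻¹ else 0 := by
  intro j
  have hb0 : (0 : ℝ) < b := by exact_mod_cast (by omega : 0 < b)
  have hpos : (0 : ℝ) < (b : ℝ) ^ γ := Real.rpow_pos_of_pos hb0 _
  have hc : (0 : ℝ) < (A j).card := lt_of_lt_of_le hpos (hA j).2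
  refine ⟨fun a => ?_, ?_⟩
  · dsimp only
    split_ifs
    · refine ⟨by positivity, ?_⟩
      rw [Real.rpow_neg hb0.le]
      exact inv_anti₀ hpos (hA j).2
    · exact ⟨le_rfl, by positivity⟩
  · rw [← sum_filter, filter_mem_eq_inter, inter_eq_right.2 (hA j).1, sum_const, nsmul_eq_mul]
    exact mul_inv_cancel₀ hc.ne'

theorem result (b : ℕ) (hb : 2 ≤ b) (γ : ℝ) (hγ : 1 / 2 < γ) (hγ1 : γ ≤ 1) :
    -- 1. the probability that there are bad integers near random integers
    (∀ μ : ℝ, 4 - 2 * γ < μ → ∀ W U : ℕ, ∃ K₀ : ℕ, ∀ K : ℕ, K₀ ≤ K →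
      ∀ w : Fin 3 → ℕ → ℕ → ℝ, (∀ l, Digits b γ (w l)) → ∀ B : Finset (Fin 3 → ℕ),
        (∀ x ∈ B, (∀ l, x l < b ^ K) ∧
          ∃ t : Fin 3 → ℤ, (∀ l, Near ((K : ℝ) ^ W) (x l) (t l)) ∧ ¬ Good μ t) →
        ∑ x ∈ B, ∏ l, prob b (w l) K (x l) ≤ 1 / (K : ℝ) ^ U) ∧
    -- 2. restricted digits
    (∀ μ : ℝ, 4 - 2 * γ < μ → ∀ W U : ℕ, ∃ K₀ : ℕ, ∀ K : ℕ, K₀ ≤ K →
      ∀ A : Fin 3 → ℕ → Finset ℕ, (∀ l j, A l j ⊆ range b ∧ (b : ℝ) ^ γ ≤ (A l j).card) →
      ∀ B : Finset (Fin 3 → ℕ),
        (∀ n ∈ B, (∀ l, n l < b ^ K) ∧ (∀ l, ∀ j < K, n l / b ^ j % b ∈ A l j) ∧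
          ∃ t : Fin 3 → ℤ, (∀ l, Near ((K : ℝ) ^ W) (n l) (t l)) ∧ ¬ Good μ t) →
        (B.card : ℝ) ≤ (∏ l, ∏ j ∈ range K, ((A l j).card : ℝ)) / (K : ℝ) ^ U) ∧
    -- 3. one null set
    ∀ (Ω : Type) [MeasurableSpace Ω] (Q : Measure Ω) [IsProbabilityMeasure Q]
      (X : Fin 3 → ℕ → Ω → ℕ) (w : Fin 3 → ℕ → ℕ → ℕ → ℝ), (∀ l K, Measurable (X l K)) →
      (∀ K l l', l ≠ l' → IndepFun (X l K) (X l' K) Q) → (∀ l K, Digits b γ (w l K)) →
      (∀ l K n, n < b ^ K → Q.real {ω | X l K ω = n} = prob b (w l K) K n) →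
      ∀ᵐ ω ∂Q, ∀ μ : ℝ, 4 - 2 * γ < μ → ∀ W : ℕ, ∀ᶠ K : ℕ in atTop, ∀ t : Fin 3 → ℤ,
        (∀ l, Near ((K : ℝ) ^ W) (X l K ω) (t l)) → Good μ t := by
  have h1 : ∀ μ : ℝ, 4 - 2 * γ < μ → ∀ W U : ℕ, ∃ K₀ : ℕ, ∀ K : ℕ, K₀ ≤ K →
      ∀ w : Fin 3 → ℕ → ℕ → ℝ, (∀ l, Digits b γ (w l)) → ∀ B : Finset (Fin 3 → ℕ),
        (∀ x ∈ B, (∀ l, x l < b ^ K) ∧
          ∃ t : Fin 3 → ℤ, (∀ l, Near ((K : ℝ) ^ W) (x l) (t l)) ∧ ¬ Good μ t) →
        ∑ x ∈ B, ∏ l, prob b (w l) K (x l) ≤ 1 / (K : ℝ) ^ U := by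
    intro μ hμ W U
    obtain ⟨K₀, h⟩ := Pool.Agent.HP25.PS.dig_three b hb γ hγ hγ1 μ hμ W U
    refine ⟨K₀, fun K hK w hw B hB => ?_⟩
    have h2 := (h K hK w (fun l => dig_of (hw l))).1 B hB
    rw [one_div]
    simpa only [prob_eq] using h2
  refine ⟨h1, ?_, ?_⟩
  · intro μ hμ W U
    obtain ⟨K₀, h⟩ := h1 μ hμ W U
    refine ⟨K₀, fun K hK A hA B hB => ?_⟩
    have h2 := h K hK _ (fun l => digits_unif hb (hA l)) B fun x hx => ⟨(hB x hx).1, (hB x hx).2.2⟩
    have hb0 : (0 : ℝ) < b := by exact_mod_cast (by omega : 0 < b)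
    have hc : ∀ l j, (0 : ℝ) < (A l j).card := fun l j =>
      lt_of_lt_of_le (Real.rpow_pos_of_pos hb0 γ) (hA l j).2
    have h3 : ∑ x ∈ B, ∏ l, prob b (fun j a => if a ∈ A l j then ((A l j).card : ℝ)⁻¹ else 0) K (x l) =
        B.card * (∏ l, ∏ j ∈ range K, ((A l j).card : ℝ))⁻¹ := by
      rw [← nsmul_eq_mul, ← sum_const]
      refine sum_congr rfl fun x hx => ?_
      rw [← prod_inv_distrib]
      refine prod_congr rfl fun l _ => ?_
      unfold prob
      rw [← prod_inv_distrib]
      refine prod_congr rfl fun j hj => ?_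
      dsimp only
      rw [if_pos ((hB x hx).2.1 l j (mem_range.1 hj))]
    have hP : (0 : ℝ) < ∏ l, ∏ j ∈ range K, ((A l j).card : ℝ) :=
      prod_pos fun l _ => prod_pos fun j _ => hc l j
    rw [h3, ← div_eq_mul_inv, div_le_iff₀ hP] at h2
    rw [div_eq_mul_one_div, mul_comm]
    exact h2
  · intro Ω _ Q _ X w hX hind hw hlaw
    have h := Pool.Agent.HP25.PS.dig_three_ae b hb γ hγ hγ1 Q X hX hind w (fun l K => dig_of (hw l K))
      (fun l K n hn => by rw [hlaw l K n hn, prob_eq])
    filter_upwards [h] with ω hω μ hμ W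
    exact hω μ hμ W

end Pool.Agent.Results.MP_3923f3_nt.ThreeRandomDigitCoefficients
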